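import Pool.Agent.Helper10.RC.Basic

/-!
# `a ≤ b + ε` implies `(a - ε)_+ ≼ b`
-/

open scoped ENNReal NNReal InnerProductSpace ComplexOrder
open Filter Topology

attribute [-instance] CStarMatrix.instAlgebra CStarMatrix.instModule CStarMatrix.instSMul
  CStarMatrix.instMulAction CStarMatrix.instDistribMulAction

noncomputable section
namespace Pool.Agent.Helper6.RC

open _root_.RC

universe u

section
variable {D : Type u} [CStarAlgebra D] [PartialOrder D] [StarOrderedRing D]

theorem cu_of_le {x y : D} (hx : 0 ≤ x) (hxy : x ≤ y) {γ : ℝ} (hγ : 0 < γ) :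
    ∃ v : D, ‖v * y * star v - x‖ < γ := by
  have hy : 0 ≤ y := hx.trans hxy
  set δ : ℝ := γ / 3 with hδ
  have hδ0 : 0 < δ := by positivity
  have hsy : ∀ t ∈ spectrum ℝ y, 0 ≤ t := fun t ht => spectrum_nonneg_of_nonneg hy ht
  set s : D := cfc Real.sqrt x with hs
  have hss : s * s = x := by
    rw [hs, ← cfc_mul Real.sqrt Real.sqrt x]
    conv_rhs => rw [← cfc_id' ℝ x]
    exact cfc_congr fun t ht => Real.mul_self_sqrt (spectrum_nonneg_of_nonneg hx ht)
  have hsa : star s = s := (cfc_predicate Real.sqrt x : IsSelfAdjoint _).star_eq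
  let k : ℝ → ℝ := fun t => Real.sqrt t / (|t| + δ)
  have hk : Continuous k := by
    refine Real.continuous_sqrt.div (by fun_prop) fun t => ?_
    positivity
  let h : ℝ → ℝ := fun t => 1 - t ^ 2 / (|t| + δ) ^ 2
  have hh : Continuous h := by
    refine continuous_const.sub ((by fun_prop : Continuous fun t : ℝ => t ^ 2).div (by fun_prop)
      fun t => ?_)
    positivity
  have hh0 : ∀ t, 0 ≤ h t := by
    intro t
    have : t ^ 2 / (|t| + δ) ^ 2 ≤ 1 := by
      rw [div_le_one (by positivity), ← sq_abs t]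
      gcongr
      linarith
    simp only [h]; linarith
  set K : D := cfc k y with hK
  have hKa : star K = K := (cfc_predicate k y : IsSelfAdjoint _).star_eq
  set R : D := cfc (fun t => Real.sqrt (h t)) y with hR
  have hRc : Continuous (fun t => Real.sqrt (h t)) := hh.sqrt
  have hRa : star R = R := (cfc_predicate (fun t => Real.sqrt (h t)) y : IsSelfAdjoint _).star_eq
  have e1 : K * y * K = 1 - R * R := by
    have e2 : K * y * K = cfc (fun t => k t * t * k t) y := by
      rw [cfc_mul (fun t => k t * t) k y (by fun_prop) (by fun_prop),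
        cfc_mul k (fun t => t) y (by fun_prop) (by fun_prop), cfc_id' ℝ y]
    have e3 : (1 : D) - R * R = cfc (fun t => 1 - Real.sqrt (h t) * Real.sqrt (h t)) y := by
      rw [cfc_sub (fun _ => (1 : ℝ)) (fun t => Real.sqrt (h t) * Real.sqrt (h t)) y
        (by fun_prop) (by fun_prop), cfc_mul (fun t => Real.sqrt (h t))
        (fun t => Real.sqrt (h t)) y (by fun_prop) (by fun_prop), cfc_const_one ℝ y]
    rw [e2, e3]
    refine cfc_congr fun t ht => ?_
    have h0 := hsy t ht
    simp only [Real.mul_self_sqrt (hh0 t)]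
    simp only [k, h, abs_of_nonneg h0]
    have : 0 < t + δ := by linarith
    field_simp
    rw [Real.sq_sqrt h0]
    ring
  have e4 : x - (s * K) * y * star (s * K) = star (R * s) * (R * s) := by
    rw [star_mul, star_mul, hsa, hKa, hRa]
    calc x - s * K * y * (K * s) = s * s - s * (K * y * K) * s := by rw [hss]; noncomm_ring
      _ = s * R * (R * s) := by rw [e1]; noncomm_ring
  refine ⟨s * K, ?_⟩
  rw [← norm_neg, neg_sub, e4]
  have e5 : ‖star (R * s) * (R * s)‖ = ‖(R * s) * star (R * s)‖ := by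
    rw [CStarRing.norm_star_mul_self, CStarRing.norm_self_mul_star]
  have e6 : (R * s) * star (R * s) = R * x * star R := by
    rw [star_mul, hsa, ← hss]; noncomm_ring
  have e7 : R * x * star R ≤ R * y * star R := star_right_conjugate_le_conjugate hxy R
  have e8 : 0 ≤ R * x * star R := star_right_conjugate_nonneg hx R
  have e9 : R * y * star R = cfc (fun t => Real.sqrt (h t) * t * Real.sqrt (h t)) y := by
    rw [hRa, cfc_mul (fun t => Real.sqrt (h t) * t) (fun t => Real.sqrt (h t)) y (by fun_prop)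
      (by fun_prop), cfc_mul (fun t => Real.sqrt (h t)) (fun t => t) y (by fun_prop)
      (by fun_prop), cfc_id' ℝ y]
  have e10 : ‖R * y * star R‖ ≤ 2 * δ := by
    rw [e9]
    refine norm_cfc_le (by positivity) fun t ht => ?_
    have h0 := hsy t ht
    have e11 : Real.sqrt (h t) * t * Real.sqrt (h t) = t * h t := by
      rw [mul_right_comm, Real.mul_self_sqrt (hh0 t), mul_comm]
    rw [e11, Real.norm_eq_abs, abs_of_nonneg (mul_nonneg h0 (hh0 t))]
    simp only [h, abs_of_nonneg h0]
    have h1 : 0 < t + δ := by linarith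
    have : t * (1 - t ^ 2 / (t + δ) ^ 2) = t * (δ * (2 * t + δ)) / (t + δ) ^ 2 := by
      field_simp; ring
    rw [this, div_le_iff₀ (by positivity)]
    nlinarith [mul_nonneg h0 hδ0.le, mul_nonneg (mul_nonneg h0 hδ0.le) hδ0.le, pow_pos hδ0 3]
  rw [e5, e6]
  calc ‖R * x * star R‖ ≤ ‖R * y * star R‖ := CStarAlgebra.norm_le_norm_of_nonneg_of_le e8 e7
    _ ≤ 2 * δ := e10
    _ < γ := by rw [hδ]; linarith

theorem cu_le_add {a b : D} {ε : ℝ} (ha : IsSelfAdjoint a) (hab : a ≤ b + ε • (1 : D)) {γ : ℝ}
    (hγ : 0 < γ) : ∃ v : D, ‖v * b * star v - cut a ε‖ < γ := by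
  set η : ℝ := γ / 2 with hη
  have hη0 : 0 < η := by positivity
  let h : ℝ → ℝ := fun t => Real.sqrt (max (t - ε - η) 0 / max (t - ε) η)
  have hmp : ∀ t : ℝ, 0 < max (t - ε) η := fun t => lt_max_of_lt_right hη0
  have hh : Continuous h := by
    refine Continuous.sqrt ((by fun_prop : Continuous fun t : ℝ => max (t - ε - η) 0).div
      (by fun_prop) fun t => (hmp t).ne')
  set H : D := cfc h a with hH
  have hHa : star H = H := (cfc_predicate h a : IsSelfAdjoint _).star_eq
  have e1 : H * (a - ε • (1 : D)) * star H = cut a (ε + η) := by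
    have e2 : a - ε • (1 : D) = cfc (fun t => t - ε) a := by
      rw [cfc_sub (fun t => t) (fun _ => ε) a (by fun_prop) (by fun_prop), cfc_id' ℝ a,
        cfc_const ε a, Algebra.algebraMap_eq_smul_one]
    rw [hHa, e2, ← cfc_mul h (fun t => t - ε) a (by fun_prop) (by fun_prop),
      ← cfc_mul (fun t => h t * (t - ε)) h a (by fun_prop) (by fun_prop), cut]
    refine cfc_congr fun t _ => ?_
    have e3 : h t * h t = max (t - ε - η) 0 / max (t - ε) η :=
      Real.mul_self_sqrt (div_nonneg (le_max_right _ _) (hmp t).le)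
    have e4 : h t * (t - ε) * h t = h t * h t * (t - ε) := by ring
    show h t * (t - ε) * h t = max (t - (ε + η)) 0
    rw [e4, e3]
    rcases le_total (t - ε) η with h1 | h1
    · have h2 : max (t - ε - η) 0 = 0 := max_eq_right (by linarith)
      have h3 : max (t - (ε + η)) 0 = 0 := max_eq_right (by linarith)
      rw [h2, h3]; simp
    · have h2 : max (t - ε - η) 0 = max (t - (ε + η)) 0 := by rw [sub_sub]
      have h3 : t - ε ≠ 0 := by linarith
      rw [h2, max_eq_left h1, div_mul_cancel₀ _ h3]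
  have e5 : cut a (ε + η) ≤ H * b * star H := by
    rw [← e1]
    exact star_right_conjugate_le_conjugate (sub_le_iff_le_add.2 hab) H
  obtain ⟨w, hw⟩ := cu_of_le (cut_nonneg a (ε + η)) e5 hη0
  refine ⟨w * H, ?_⟩
  have e6 : w * H * b * star (w * H) = w * (H * b * star H) * star w := by
    rw [star_mul]; noncomm_ring
  have e7 : ‖cut a ε - cut a (ε + η)‖ ≤ η := by
    rw [← cut_cut ha hη0.le]
    exact norm_sub_cut_le (cut_nonneg a ε) hη0.le
  rw [e6]
  calc ‖w * (H * b * star H) * star w - cut a ε‖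
      = ‖(w * (H * b * star H) * star w - cut a (ε + η)) - (cut a ε - cut a (ε + η))‖ := by
        congr 1; abel
    _ ≤ ‖w * (H * b * star H) * star w - cut a (ε + η)‖ + ‖cut a ε - cut a (ε + η)‖ :=
        norm_sub_le _ _
    _ < η + η := by linarith
    _ = γ := by rw [hη]; ring

end

theorem cuLeAddP : CuLeAddP.{u} := by
  intro A _ _ _ ι _ _ a b ε _ ha _ hab γ hγ
  exact cu_le_add ha.isSelfAdjoint hab hγ

end Pool.Agent.Helper6.RC
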