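import Pool.Agent.Helper10.RC.Basic

/-!
# Domination by a trace passes to matrix algebras
-/

open scoped ENNReal NNReal InnerProductSpace ComplexOrder
open Filter Topology

attribute [-instance] CStarMatrix.instAlgebra CStarMatrix.instModule CStarMatrix.instSMul
  CStarMatrix.instMulAction CStarMatrix.instDistribMulAction

noncomputable section
namespace Pool.Agent.Helper6.RC

open _root_.RC

universe u

section
variable {A : Type u} [CStarAlgebra A] [PartialOrder A] [StarOrderedRing A]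

theorem one1_nonneg {x : A} (hx : 0 ≤ x) : 0 ≤ one1 x := by
  obtain ⟨s, hs⟩ := CStarAlgebra.nonneg_iff_eq_mul_star_self.mp hx
  have : one1 x = one1 s * (one1 s).conjTranspose := by
    ext i j
    rw [CStarMatrix.mul_apply]
    rw [Fintype.sum_unique]
    exact hs
  rw [this]
  exact cm_mul_conj_nonneg _

theorem diag_nonneg {ν : Type} [Fintype ν] [DecidableEq ν] {T : CStarMatrix ν ν A} (hT : 0 ≤ T)
    (i : ν) : 0 ≤ T i i := by
  obtain ⟨s, hs⟩ := CStarAlgebra.nonneg_iff_eq_mul_star_self.mp hT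
  rw [hs, CStarMatrix.mul_apply]
  refine Finset.sum_nonneg fun k _ => ?_
  rw [CStarMatrix.star_apply]
  exact mul_star_self_nonneg _

/-- the tracial state on matrices -/
def tst (φ : TState A) (ν : Type) [Fintype ν] [DecidableEq ν] [Nonempty ν] :
    TState (CStarMatrix ν ν A) where
  φ :=
    { toFun := fun T => (Fintype.card ν : ℂ)⁻¹ * ∑ i, φ.φ (T i i)
      map_add' := fun S T => by
        have h : ∀ i, φ.φ ((S + T) i i) = φ.φ (S i i) + φ.φ (T i i) := fun i => by
          rw [← map_add]; rfl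
        simp only [h, Finset.sum_add_distrib, mul_add]
      map_smul' := fun c T => by
        have h : ∀ i, φ.φ ((c • T) i i) = c * φ.φ (T i i) := fun i => by
          rw [← smul_eq_mul, ← map_smul]; rfl
        simp only [h, ← Finset.mul_sum, RingHom.id_apply, smul_eq_mul]
        ring }
  nonneg T hT := by
    show 0 ≤ (Fintype.card ν : ℂ)⁻¹ * ∑ i, φ.φ (T i i)
    refine mul_nonneg ?_ (Finset.sum_nonneg fun i _ => φ.nonneg _ (diag_nonneg hT i))
    rw [← Complex.ofReal_natCast, ← Complex.ofReal_inv]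
    exact_mod_cast inv_nonneg.2 (Nat.cast_nonneg (α := ℝ) (Fintype.card ν))
  trace a b := by
    show (Fintype.card ν : ℂ)⁻¹ * ∑ i, φ.φ ((a * b) i i) =
      (Fintype.card ν : ℂ)⁻¹ * ∑ i, φ.φ ((b * a) i i)
    simp only [CStarMatrix.mul_apply, map_sum]
    rw [Finset.sum_comm]
    congr 1
    refine Finset.sum_congr rfl fun i _ => Finset.sum_congr rfl fun k _ => ?_
    exact φ.trace _ _
  one := by
    show (Fintype.card ν : ℂ)⁻¹ * ∑ i, φ.φ ((1 : CStarMatrix ν ν A) i i) = 1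
    have h : ∀ i, φ.φ ((1 : CStarMatrix ν ν A) i i) = 1 := fun i => by
      rw [← φ.one]; congr 1; simp
    have : (Fintype.card ν : ℂ) ≠ 0 := by exact_mod_cast Fintype.card_ne_zero
    rw [Finset.sum_congr rfl fun i _ => h i]
    simp [this]

theorem tau_flat {φ : TState A} {σ₀ : QTrace A} (hQ : IsQ φ σ₀) {ν : Type} [Fintype ν]
    [DecidableEq ν] [Nonempty ν] {σ' : QTrace (CStarMatrix ν ν A)} (hQ' : IsQ (tst φ ν) σ')
    (ι : Type) [Fintype ι] [DecidableEq ι] (X : CStarMatrix ι ι (CStarMatrix ν ν A)) :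
    σ'.τ ι X = (Fintype.card ν : ℝ)⁻¹ * σ₀.τ (ι × ν) (flat X) := by
  rw [hQ', hQ, Fintype.sum_prod_type, Finset.mul_sum]
  refine Finset.sum_congr rfl fun i _ => ?_
  show ((Fintype.card ν : ℂ)⁻¹ * ∑ k, φ.φ (X i i k k)).re = _
  rw [← Complex.ofReal_natCast, ← Complex.ofReal_inv, Complex.re_ofReal_mul, Complex.re_sum]
  rfl

end

theorem domMatP (h1 : QOfTP.{u}) (h2 : RedDnP.{u}) (h3 : DomMP.{u}) (h4 : FlatP.{u}) :
    DomMatP.{u} := by
  intro A _ _ _ φ σ₀ C hQ hC hdom ν _ _ _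
  obtain ⟨σ', hQ'⟩ := h1 (CStarMatrix ν ν A) (tst φ ν)
  have hν : (0 : ℝ) < Fintype.card ν := by exact_mod_cast Fintype.card_pos
  refine ⟨tst φ ν, σ', C * Fintype.card ν, by positivity, hQ', ?_, fun T => rfl⟩
  intro σ'' x hx
  obtain ⟨σ, hσ⟩ := h2 A ν σ''
  have hx1 := one1_nonneg hx
  have hf := h4 A ν Unit Unit (one1 x) (one1 x)
  have hfx : 0 ≤ flat (one1 x) := hf.1.1 hx1
  have e1 : σ'.dim (one1 x) = (Fintype.card ν : ℝ)⁻¹ * σ₀.dim (flat (one1 x)) := by
    unfold QTrace.dim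
    rw [Real.mul_iSup_of_nonneg (by positivity)]
    refine iSup_congr fun n => ?_
    rw [tau_flat hQ hQ', hf.2.2 _ (by fun_prop) hx1]
  have e2 := h3 A σ₀ C hC hdom σ (Unit × ν) (flat (one1 x)) hfx
  rw [hσ Unit (one1 x) hx1, e1, div_le_iff₀ hν]
  rw [Fintype.card_prod, Fintype.card_unit, one_mul] at e2
  calc σ.dim (flat (one1 x)) ≤ C * Fintype.card ν * σ₀.dim (flat (one1 x)) := e2
    _ = C * Fintype.card ν * ((Fintype.card ν : ℝ)⁻¹ * σ₀.dim (flat (one1 x))) *
        Fintype.card ν := by field_simp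

end Pool.Agent.Helper6.RC
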